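import Pool.Agent.GT.StmtsB

/-!
Row B_GNA of the squad GT: elementary properties of `gen`.
-/

namespace Pool.Agent.GT.H67

open Finset

/-- the weight of a fibre -/
noncomputable def cf (N K : ℕ) [NeZero N] (s : ZMod N) : ℝ :=
  av (fun y : Fin K → ZMod N => if ∑ i, y i = s then (1 : ℝ) else 0)

theorem cf_shift (N K : ℕ) [NeZero N] (hK : 1 ≤ K) (s t : ZMod N) : cf N K (s + t) = cf N K s := by
  unfold cf
  let j : Fin K := ⟨0, hK⟩
  have h := av_equiv (Equiv.addRight (Pi.single j t : Fin K → ZMod N))
    (fun y : Fin K → ZMod N => if ∑ i, y i = s + t then (1 : ℝ) else 0)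
  rw [← h]
  congr 1
  funext y
  have e : ∑ i, (Equiv.addRight (Pi.single j t : Fin K → ZMod N)) y i = ∑ i, y i + t := by
    simp [Finset.sum_add_distrib, Finset.sum_pi_single']
  rw [e]
  simp

theorem sum_cf (N K : ℕ) [NeZero N] : ∑ s : ZMod N, cf N K s = 1 := by
  unfold cf
  rw [← av_sum]
  have : (fun y : Fin K → ZMod N => ∑ s : ZMod N, if ∑ i, y i = s then (1 : ℝ) else 0) =
      fun _ => 1 := by
    funext y
    simp
  rw [this, av_const]

theorem cf_eq (N K : ℕ) [NeZero N] (hK : 1 ≤ K) (s : ZMod N) : (N : ℝ) * cf N K s = 1 := by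
  have h := sum_cf N K
  have h2 : ∀ t : ZMod N, cf N K t = cf N K s := by
    intro t
    have := cf_shift N K hK s (t - s)
    rwa [add_sub_cancel] at this
  rw [Finset.sum_congr rfl (fun t _ => h2 t), Finset.sum_const, Finset.card_univ, ZMod.card,
    nsmul_eq_mul] at h
  exact h

theorem gen_one (N K : ℕ) [NeZero N] (hK : 1 ≤ K) (s : ZMod N) :
    gen N K (fun _ _ => 1) s = 1 := by
  unfold gen
  have := cf_eq N K hK s
  unfold cf at this
  simpa using this

theorem gna : GnaStmt := by
  intro N K _ hK
  have h1 : ∀ (h : ZMod N → ℝ) (u : Fin K → (Fin K → ZMod N) → ℝ),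
      av (fun s => h s * gen N K u s) = av (fun y : Fin K → ZMod N => h (∑ i, y i) * ∏ i, u i y) := by
    intro h u
    have hN : (N : ℝ) ≠ 0 := by exact_mod_cast NeZero.ne N
    have e1 : (fun s : ZMod N => h s * gen N K u s) =
        fun s => (N : ℝ) * av (fun y : Fin K → ZMod N =>
          h s * ((if ∑ i, y i = s then 1 else 0) * ∏ i, u i y)) := by
      funext s
      rw [av_mul_left]
      unfold gen
      ring
    rw [e1, av_mul_left, av_comm]
    rw [← av_mul_left]
    congr 1
    funext y
    unfold av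
    rw [ZMod.card]
    have : ∑ s : ZMod N, h s * ((if ∑ i, y i = s then 1 else 0) * ∏ i, u i y) =
        h (∑ i, y i) * ∏ i, u i y := by
      rw [Finset.sum_eq_single (∑ i, y i)]
      · simp
      · intro b _ hb
        rw [if_neg (fun h => hb h.symm)]
        ring
      · intro h
        exact absurd (Finset.mem_univ _) h
    rw [this]
    field_simp
  refine ⟨h1, ?_, ?_, ?_, ?_⟩
  · rintro φ ⟨u, -, hu, rfl⟩ s
    have h2 : |gen N K u s| ≤ gen N K (fun _ _ => 1) s := by
      unfold gen
      rw [abs_mul, Nat.abs_cast]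
      refine mul_le_mul_of_nonneg_left ?_ (Nat.cast_nonneg _)
      refine (abs_av_le _).trans (av_mono fun y => ?_)
      rw [abs_mul]
      refine mul_le_mul ?_ ?_ (abs_nonneg _) ?_
      · split_ifs <;> simp
      · rw [Finset.abs_prod]
        refine (Finset.prod_le_one (fun i _ => abs_nonneg _) (fun i _ => hu i y)).trans ?_
        simp
      · split_ifs <;> simp
    rw [gen_one N K hK] at h2
    exact h2
  · refine ⟨fun _ _ => 1, fun i y s => rfl, fun i y => by simp, ?_⟩
    funext s
    rw [gen_one N K hK]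
  · rintro φ ⟨u, hi, hu, rfl⟩
    let j : Fin K := ⟨0, hK⟩
    refine ⟨fun i y => (if i = j then -1 else 1) * u i y, ?_, ?_, ?_⟩
    · intro i y s
      show (if i = j then (-1 : ℝ) else 1) * u i (Function.update y i s) =
        (if i = j then (-1 : ℝ) else 1) * u i y
      rw [hi i y s]
    · intro i y
      show |(if i = j then (-1 : ℝ) else 1) * u i y| ≤ 1
      rw [abs_mul]
      have : |(if i = j then (-1 : ℝ) else 1)| = 1 := by split_ifs <;> simp
      rw [this, one_mul]
      exact hu i y
    · funext s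
      unfold gen
      rw [← mul_neg, ← av_neg]
      congr 2
      funext y
      rw [Finset.prod_mul_distrib, Finset.prod_ite_eq' univ j (fun _ => (-1 : ℝ))]
      simp
  · intro h ε hC
    have h2 := h1 h (fun _ _ => 1)
    have e : (fun s : ZMod N => h s * gen N K (fun _ _ => 1) s) = h := by
      funext s
      rw [gen_one N K hK, mul_one]
    rw [e] at h2
    rw [h2]
    exact hC (fun _ _ => 1) (fun i y s => rfl) (fun i y => by simp)

end Pool.Agent.GT.H67
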