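import Pool.Agent.GT.StmtsD

/-!
Row D_PRI of the squad GT: the primes from the theorem of Green and Tao.
-/

set_option autoImplicit false

namespace Pool.Agent.GT.D.H67

open Polynomial Pool.Agent.NJ

/-- `ul p` only depends on the residue class modulo `p` (for numbers prime to `p`) -/
theorem ul_congr (val : ValStmt) {p : ℕ} (hp : p.Prime) {x y : ℤ} (hx : ¬ (p : ℤ) ∣ x)
    (h : ((x : ℤ) : ZMod p) = ((y : ℤ) : ZMod p)) : ul p x = ul p y := by
  have hy : ¬ (p : ℤ) ∣ y := by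
    intro hy
    rw [← ZMod.intCast_zmod_eq_zero_iff_dvd y p, ← h, ZMod.intCast_zmod_eq_zero_iff_dvd x p] at hy
    exact hx hy
  unfold ul
  rw [(val.1 p x hp hx).2, (val.1 p y hp hy).2, h]

/-- the odd primes which divide one of the differences -/
def dq {ι : Type} [Fintype ι] [DecidableEq ι] (n : ι → ℕ) : Finset ℕ :=
  (Finset.univ : Finset (ι × ι)).biUnion fun x =>
    (((n x.1 : ℤ) - n x.2).natAbs).primeFactors.filter fun q => q ≠ 2

theorem mem_dq {ι : Type} [Fintype ι] [DecidableEq ι] {n : ι → ℕ} {q : ℕ} (h : q ∈ dq n) :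
    q.Prime ∧ q ≠ 2 ∧ ∃ l l', (q : ℤ) ∣ (n l : ℤ) - n l' ∧ (n l : ℤ) - n l' ≠ 0 := by
  unfold dq at h
  rw [Finset.mem_biUnion] at h
  obtain ⟨x, -, hx⟩ := h
  rw [Finset.mem_filter, Nat.mem_primeFactors] at hx
  obtain ⟨⟨h1, h2, h3⟩, h4⟩ := hx
  refine ⟨h1, h4, x.1, x.2, ?_, ?_⟩
  · exact Int.natCast_dvd.2 h2
  · exact fun h => h3 (by rw [h]; rfl)

theorem dq_mem {ι : Type} [Fintype ι] [DecidableEq ι] {n : ι → ℕ} {q : ℕ} (hq : q.Prime)
    (h2 : q ≠ 2) (l l' : ι) (h : (q : ℤ) ∣ (n l : ℤ) - n l') (h0 : (n l : ℤ) - n l' ≠ 0) :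
    q ∈ dq n := by
  unfold dq
  rw [Finset.mem_biUnion]
  refine ⟨(l, l'), Finset.mem_univ _, ?_⟩
  rw [Finset.mem_filter, Nat.mem_primeFactors]
  exact ⟨⟨hq, Int.natCast_dvd.1 h, fun h => h0 (Int.natAbs_eq_zero.1 h)⟩, h2⟩

theorem mem_S {a : Fin 3 → ℤ} {q : ℕ} (h : q ∈ S0 a ∪ S1 a) :
    q.Prime ∧ q ≠ 2 ∧ ∃ i, (q : ℤ) ∣ a i := by
  have key : q ∈ (a 0 * a 1 * a 2).natAbs.primeFactors ∧ q ≠ 2 := by
    rw [Finset.mem_union] at h
    rcases h with h | h
    · unfold S0 at h; rw [Finset.mem_filter] at h; exact ⟨h.1, h.2.1⟩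
    · unfold S1 at h; rw [Finset.mem_filter] at h; exact ⟨h.1, h.2.1⟩
  obtain ⟨h1, h2⟩ := key
  rw [Nat.mem_primeFactors] at h1
  obtain ⟨h3, h4, -⟩ := h1
  refine ⟨h3, h2, ?_⟩
  have h5 : (q : ℤ) ∣ a 0 * a 1 * a 2 := Int.natCast_dvd.2 h4
  have hpi : Prime (q : ℤ) := Nat.prime_iff_prime_int.1 h3
  rcases hpi.dvd_or_dvd h5 with h6 | h6
  · rcases hpi.dvd_or_dvd h6 with h7 | h7
    · exact ⟨0, h7⟩
    · exact ⟨1, h7⟩
  · exact ⟨2, h6⟩

theorem S_mem {a : Fin 3 → ℤ} (ha : ∀ i, a i ≠ 0) {q : ℕ} (hq : q.Prime) (h2 : q ≠ 2) (i : Fin 3)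
    (h : (q : ℤ) ∣ a i) : q ∈ S0 a ∪ S1 a := by
  have h3 : (q : ℤ) ∣ a 0 * a 1 * a 2 := by
    fin_cases i
    · exact (Dvd.dvd.mul_right h _).mul_right _
    · exact (Dvd.dvd.mul_left h _).mul_right _
    · exact Dvd.dvd.mul_left h _
  have h4 : q ∈ (a 0 * a 1 * a 2).natAbs.primeFactors := by
    rw [Nat.mem_primeFactors]
    refine ⟨hq, Int.natCast_dvd.1 h3, ?_⟩
    rw [Ne, Int.natAbs_eq_zero]
    exact mul_ne_zero (mul_ne_zero (ha 0) (ha 1)) (ha 2)
  have h5 : ∀ x : ZMod 2, x = 0 ∨ x = 1 := by decide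
  rw [Finset.mem_union]
  rcases h5 (vl q (a 0 * a 1 * a 2)) with h6 | h6
  · left
    unfold S0
    rw [Finset.mem_filter]
    exact ⟨h4, h2, h6⟩
  · right
    unfold S1
    rw [Finset.mem_filter]
    exact ⟨h4, h2, h6⟩

/-- numbers all of whose odd prime divisors have a trivial symbol -/
theorem ul_zero (add : AddStmt) (val : ValStmt) (exp : ExpStmt) (rcp : RcpStmt) {p : ℕ}
    (hp : p.Prime) (h8 : p % 8 = 1) (Q : Finset ℕ)
    (hQ : ∀ q ∈ Q, q.Prime ∧ q ≠ 2 ∧ ¬ q ∣ p ∧ ul q p = 0) {n : ℤ} (hn : n ≠ 0)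
    (h : ∀ q : ℕ, q.Prime → q ≠ 2 → (q : ℤ) ∣ n → q ∈ Q) : ul p n = 0 := by
  have hp2 : p ≠ 2 := by rintro rfl; norm_num at h8
  have hf := add.2.1 p hp hp2
  have h1 := exp (ul p) hf n hn (insert 2 Q) ?_ ?_
  · rw [h1, (rcp.1 p hp h8).1, mul_zero, zero_add]
    refine Finset.sum_eq_zero fun q hq => ?_
    rw [Finset.mem_insert] at hq
    rcases hq with rfl | hq
    · have := (rcp.1 p hp h8).2
      rw [show ((2 : ℕ) : ℤ) = 2 from rfl, this, mul_zero]
    · obtain ⟨h2, h3, h4, h5⟩ := hQ q hq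
      have hne : p ≠ q := fun h => h4 (h ▸ dvd_refl _)
      rw [rcp.2.1 p q hp h2 h8 h3 hne, h5, mul_zero]
  · intro q hq
    rw [Finset.mem_insert] at hq
    rcases hq with rfl | hq
    · exact Nat.prime_two
    · exact (hQ q hq).1
  · intro q hq hq2
    rw [Finset.mem_insert, not_or] at hq2
    by_cases hd : (q : ℤ) ∣ n
    · exact absurd (h q hq hq2.1 hd) hq2.2
    · exact (val.1 q n hq hd).1

theorem not_dvd_of_lt {p : ℕ} {x : ℤ} (h0 : x ≠ 0) (h : x.natAbs < p) : ¬ (p : ℤ) ∣ x := by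
  intro hd
  have := Int.natCast_dvd.1 hd
  exact absurd (Nat.le_of_dvd (Int.natAbs_pos.2 h0) this) (not_le.2 h)

theorem pri (rcp : RcpStmt) (add : AddStmt) (val : ValStmt) (exp : ExpStmt) (crt : CrtStmt) :
    PriStmt := by
  intro gt ι _ _ a s r bl m st n hold hcho hinj hnr hst hdeg hsum n₀
  set Q : Finset ℕ := S0 a ∪ S1 a ∪ dq n with hQdef
  have hrQ : r ∉ Q := by
    rw [hQdef, Finset.mem_union, not_or]
    constructor
    · intro h
      obtain ⟨-, -, i, hi⟩ := mem_S h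
      exact hcho.nd i hi
    · intro h
      obtain ⟨-, -, l, l', hd, h0⟩ := mem_dq h
      refine not_dvd_of_lt h0 ?_ hd
      have h1 := hnr l
      have h2 := hnr l'
      omega
  have hQp : ∀ q ∈ Q, q.Prime ∧ q ≠ 2 := by
    intro q hq
    rw [hQdef, Finset.mem_union] at hq
    rcases hq with hq | hq
    · exact ⟨(mem_S hq).1, (mem_S hq).2.1⟩
    · exact ⟨(mem_dq hq).1, (mem_dq hq).2.1⟩
  obtain ⟨N, ρ, hN, hρ, hcrt⟩ := crt (insert r Q) (fun q => if q = r then 1 else 0) 1 (by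
    intro q hq
    rw [Finset.mem_insert] at hq
    rcases hq with rfl | hq
    · exact ⟨hcho.pr, hcho.r2⟩
    · exact hQp q hq) (by norm_num) (by norm_num)
  obtain ⟨a', d, hle, hd, hNd, hpr⟩ := gt (2 + ∑ l, n l) N ρ hN hρ
    (n₀ + r + (a 0).natAbs + (a 1).natAbs + (a 2).natAbs + 3)
  have hbig : ∀ i, (a i).natAbs < a' := by
    intro i
    fin_cases i
    · show (a 0).natAbs < a'; omega
    · show (a 1).natAbs < a'; omega
    · show (a 2).natAbs < a'; omega
  have hra : r < a' := by omega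
  have ha' : a'.Prime := by
    have := (hpr 0 (by omega)).1
    simpa using this
  have ha'd : (a' + d).Prime := by
    have := (hpr 1 (by omega)).1
    simpa using this
  have hcop : a'.Coprime d := by
    rw [Nat.Prime.coprime_iff_not_dvd ha']
    intro hdv
    have h1 : a' ∣ a' + d := Dvd.dvd.add (dvd_refl _) hdv
    rcases (Nat.dvd_prime ha'd).1 h1 with h2 | h2
    · exact ha'.one_lt.ne' h2
    · omega
  have hK : ∀ l, n l < 2 + ∑ l, n l := by
    intro l
    have := Finset.single_le_sum (f := n) (fun _ _ => Nat.zero_le _) (Finset.mem_univ l)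
    omega
  have hp : ∀ l, (a' + n l * d).Prime := fun l => (hpr (n l) (hK l)).1
  have hmod : ∀ l, a' + n l * d ≡ ρ [MOD N] := fun l => (hpr (n l) (hK l)).2
  have hmod0 : a' ≡ ρ [MOD N] := by
    have := (hpr 0 (by omega)).2
    simpa using this
  have h8 : ∀ l, (a' + n l * d) % 8 = 1 := fun l => (hcrt _ (hmod l)).1
  have h80 : a' % 8 = 1 := (hcrt _ hmod0).1
  have hge : ∀ l, a' ≤ a' + n l * d := fun l => Nat.le_add_right _ _
  have hQul : ∀ l, ∀ q ∈ Q, ¬ q ∣ (a' + n l * d) ∧ ul q ((a' + n l * d : ℕ) : ℤ) = 0 := by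
    intro l q hq
    obtain ⟨h1, h2⟩ := (hcrt _ (hmod l)).2 q (Finset.mem_insert_of_mem hq)
    refine ⟨h1, ?_⟩
    rw [h2, if_neg]
    rintro rfl
    exact hrQ hq
  have hQul' : ∀ l, ∀ q ∈ Q, q.Prime ∧ q ≠ 2 ∧ ¬ q ∣ (a' + n l * d) ∧
      ul q ((a' + n l * d : ℕ) : ℤ) = 0 := fun l q hq =>
    ⟨(hQp q hq).1, (hQp q hq).2, (hQul l q hq).1, (hQul l q hq).2⟩
  have hulr : ∀ l, ul r ((a' + n l * d : ℕ) : ℤ) = 1 := by
    intro l
    obtain ⟨h1, h2⟩ := (hcrt _ (hmod l)).2 r (Finset.mem_insert_self _ _)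
    rw [h2, if_pos rfl]
  have hnr' : ∀ l, a' + n l * d ≠ r := fun l => by have := hge l; omega
  have hcl : ∀ l, (a' + n l * d).Coprime d := by
    intro l
    rw [Nat.coprime_add_mul_right_left]
    exact hcop
  refine ⟨a', d, by omega, ha', hd, hcop, ul a' d, ?_⟩
  refine
    { pr := hp
      inj := ?_
      m8 := h8
      nd := ?_
      nr := hnr'
      ua := ?_
      um := fun l => (rcp.1 _ (hp l) (h8 l)).1
      u2 := fun l => (rcp.1 _ (hp l) (h8 l)).2
      uo := ?_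
      ur := hulr
      ur' := ?_
      mu := ?_
      st1 := hst
      deg := hdeg
      sum := hsum a' d }
  · intro l l' h
    have h : a' + n l * d = a' + n l' * d := h
    have h1 : n l * d = n l' * d := Nat.add_left_cancel h
    exact hinj (Nat.eq_of_mul_eq_mul_right hd h1)
  · intro l i
    refine not_dvd_of_lt (hold.ne i) ?_
    exact (hbig i).trans_le (hge l)
  · intro l i
    refine ul_zero add val exp rcp (hp l) (h8 l) Q (hQul' l) (hold.ne i) ?_
    intro q hq h2 hdv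
    rw [hQdef, Finset.mem_union]
    exact Or.inl (S_mem hold.ne hq h2 i hdv)
  · intro l q hq
    exact (hQul l q (by rw [hQdef, Finset.mem_union]; exact Or.inl hq)).2
  · intro l
    show ul (a' + n l * d) (r : ℤ) = 1
    rw [rcp.2.1 _ r (hp l) hcho.pr (h8 l) hcho.r2 (hnr' l)]
    exact hulr l
  · intro l l' hll
    show ul (a' + n l * d) ((a' + n l' * d : ℕ) : ℤ) = ul a' d
    set p := a' + n l * d with hpdef
    have hp2 : p ≠ 2 := by
      intro h
      have := h8 l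
      rw [← hpdef, h] at this
      norm_num at this
    have hne : (n l' : ℤ) - n l ≠ 0 := by
      intro h
      have : n l' = n l := by omega
      exact hll (hinj this).symm
    have hlt : ((n l' : ℤ) - n l).natAbs < p := by
      have h1 := hnr l
      have h2 := hnr l'
      have h3 := hge l
      omega
    have hnd1 : ¬ (p : ℤ) ∣ (n l' : ℤ) - n l := not_dvd_of_lt hne hlt
    have hnd2 : ¬ (p : ℤ) ∣ (d : ℤ) := by
      intro h
      have h1 : p ∣ d := Int.natCast_dvd_natCast.1 h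
      have h2 := hcl l
      rw [← hpdef, Nat.Prime.coprime_iff_not_dvd (hp l)] at h2
      exact h2 h1
    have hpi : Prime (p : ℤ) := Nat.prime_iff_prime_int.1 (hp l)
    have hnd : ¬ (p : ℤ) ∣ ((n l' : ℤ) - n l) * d := by
      intro h
      rcases hpi.dvd_or_dvd h with h | h
      · exact hnd1 h
      · exact hnd2 h
    have e1 : ul p ((a' + n l' * d : ℕ) : ℤ) = ul p (((n l' : ℤ) - n l) * d) := by
      refine (ul_congr val (hp l) hnd ?_).symm
      have : ((a' + n l' * d : ℕ) : ℤ) = (p : ℤ) + ((n l' : ℤ) - n l) * d := by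
        rw [hpdef]; push_cast; ring
      rw [this, Int.cast_add, Int.cast_natCast, ZMod.natCast_self, zero_add]
    have hd0 : (d : ℤ) ≠ 0 := by exact_mod_cast hd.ne'
    rw [e1, (add.2.1 p (hp l) hp2).mul _ _ hne hd0]
    have e2 : ul p ((n l' : ℤ) - n l) = 0 := by
      refine ul_zero add val exp rcp (hp l) (h8 l) Q (hQul' l) hne ?_
      intro q hq h2 hdv
      rw [hQdef, Finset.mem_union]
      exact Or.inr (dq_mem hq h2 l' l hdv hne)
    rw [e2, zero_add]
    refine rcp.2.2 p a' d (hp l) ha' (h8 l) h80 hd (hcl l) hcop ?_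
    rw [hpdef]
    unfold Nat.ModEq
    rw [Nat.add_mul_mod_self_right]

end Pool.Agent.GT.D.H67
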